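import Pool.Agent.H12.KP.CertlA

/-! CERTL (helper12). -/

namespace Pool.Agent.H12.KP

universe u

section inv

variable {A : Type u} {D : Type u} [CommRing A] [CommRing D] [IsDomain D] [Algebra A D]
  (𝒟 : ℕ → Submodule A D) [GradedAlgebra 𝒟]

/-- from `l^k = β e + π c` to the `Δ`-th powers. -/
theorem null_pow (π : A) (m s k Δ : ℕ) (hΔ : 0 < Δ) (β l e c : D) (hβ : β ∈ 𝒟 m) (hl : l ∈ 𝒟 s)
    (hk : m ≤ k * s) (he : e ∈ 𝒟 (k * s - m)) (hc : c ∈ 𝒟 (k * s))
    (h : l ^ k = β * e + algebraMap A D π * c) :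
    ∃ w ∈ 𝒟 (k * Δ * s), β ^ Δ * e ^ Δ - l ^ (k * Δ) = algebraMap A D π * w := by
  have hlk : l ^ k ∈ 𝒟 (k * s) := pow_mem_deg 𝒟 hl k
  have hbe : β * e ∈ 𝒟 (k * s) := by
    have := SetLike.mul_mem_graded hβ he
    rwa [Nat.add_sub_cancel' hk] at this
  refine ⟨- c * (∑ i ∈ Finset.range Δ, (β * e) ^ i * (l ^ k) ^ (Δ - 1 - i)), ?_, ?_⟩
  · have hsum : (∑ i ∈ Finset.range Δ, (β * e) ^ i * (l ^ k) ^ (Δ - 1 - i)) ∈
        𝒟 ((Δ - 1) * (k * s)) := by
      refine Submodule.sum_mem _ ?_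
      intro i hi
      have hi' : i < Δ := Finset.mem_range.1 hi
      have h1 := SetLike.mul_mem_graded (pow_mem_deg 𝒟 hbe i) (pow_mem_deg 𝒟 hlk (Δ - 1 - i))
      have h2 : i * (k * s) + (Δ - 1 - i) * (k * s) = (Δ - 1) * (k * s) := by
        rw [← add_mul]; congr 1; omega
      rwa [h2] at h1
    have h3 := SetLike.mul_mem_graded (Submodule.neg_mem _ hc) hsum
    have h4 : k * s + (Δ - 1) * (k * s) = k * Δ * s := by
      obtain ⟨t, rfl⟩ : ∃ t, Δ = t + 1 := ⟨Δ - 1, by omega⟩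
      simp only [Nat.add_sub_cancel]; ring
    rwa [h4] at h3
  · have h5 := (Commute.all (β * e) (l ^ k)).mul_geom_sum₂ Δ
    have h6 : β * e - l ^ k = algebraMap A D π * (- c) := by rw [h]; ring
    rw [h6] at h5
    rw [← mul_pow, pow_mul, ← h5]; ring

end inv

theorem pf_CERTL (hGEN : S_CHGEN.{u}) (hRI : S_CHRING.{u}) (hHN : S_HNFG.{u,u})
    (hTR : S_TRANSC.{u,u}) (hNU : S_NULL.{u,u}) (hHC : S_HCERT.{u}) : S_CERTL.{u} := by
  intro A D _ _ _ _ _ _ _ _ 𝒟 _ L _ _ _ π hπ hRC p hp ε e a r hpe hε ha hea m α β hα hβ hβ0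
    x y hx hy hyx hπy Δ d0 l0 l1 hF hl1x hNull
  let algAL : Algebra A L := ((algebraMap D L).comp (algebraMap A D)).toAlgebra
  have tower : IsScalarTower A D L := IsScalarTower.of_algebraMap_eq (fun _ => rfl)
  have hinj : Function.Injective (algebraMap D L) := IsFractionRing.injective D L
  set ll0 : L := algebraMap D L l0 with hll0
  set ll1 : L := algebraMap D L l1 with hll1
  have hll0n : ll0 ≠ 0 := by
    intro h0
    exact hF.n0 (hinj (by rw [map_zero]; exact h0))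
  have hll1n : ll1 ≠ 0 := by
    intro h0
    exact hF.n1 (hinj (by rw [map_zero]; exact h0))
  have hπL : algebraMap D L (algebraMap A D π) ≠ 0 := by
    intro h0
    exact hRC.ne (hinj (by rw [map_zero]; exact h0))
  have hinjA : Function.Injective (algebraMap A D) := by
    rw [injective_iff_map_eq_zero]
    intro c hc
    by_contra hc0
    obtain ⟨n, v, hv⟩ := IsDiscreteValuationRing.eq_unit_mul_pow_irreducible hc0 hπ
    rw [hv, map_mul, map_pow, mul_eq_zero] at hc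
    rcases hc with h1 | h1
    · exact (v.isUnit.map (algebraMap A D)).ne_zero h1
    · exact pow_ne_zero n hRC.ne h1
  have hinjAL : Function.Injective (algebraMap A L) := hinj.comp hinjA
  have _ : FaithfulSMul A L := (faithfulSMul_iff_algebraMap_injective A L).2 hinjAL
  have hfgd : ∀ d, (𝒟 d).FG := deg_fg 𝒟 hRC.fg hRC.gen
  obtain ⟨M, d1, hM, hB0, hB1, hB01⟩ := hGEN A D 𝒟 L Δ d0 l0 l1 hF hfgd
  set T : L := ll0 / ll1 with hT
  have hT0 : T ≠ 0 := div_ne_zero hll0n hll1n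
  have hTinv : T⁻¹ = ll1 / ll0 := by rw [hT, inv_div]
  have hl01 : l0 * l1 ∈ 𝒟 (Δ + Δ) := SetLike.mul_mem_graded hF.m0 hF.m1
  let B0 : Subalgebra A L := ChartA 𝒟 L l1 Δ hF.m1
  let B1 : Subalgebra A L := ChartA 𝒟 L l0 Δ hF.m0
  let B01 : Subalgebra A L := ChartA 𝒟 L (l0 * l1) (Δ + Δ) hl01
  have hTB0 : T ∈ B0 := by
    refine ⟨1, l0, by rw [one_mul]; exact hF.m0, ?_⟩
    rw [pow_one, hT]; exact div_mul_cancel₀ _ hll1n
  have hTB1 : T⁻¹ ∈ B1 := by
    refine ⟨1, l1, by rw [one_mul]; exact hF.m1, ?_⟩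
    rw [pow_one, hTinv]; exact div_mul_cancel₀ _ hll0n
  have hB0' : ∀ z, z ∈ B0 ↔ z ∈ Submodule.span A {z : L | ∃ i : ℕ, ∃ m ∈ M, z = T ^ i * m} := hB0
  have hB1' : ∀ z, z ∈ B1 ↔
      z ∈ Submodule.span A {z : L | ∃ i : ℕ, ∃ m ∈ M, z = T⁻¹ ^ (i + d1) * m} := by
    rw [hTinv]; exact hB1
  have hB01' : ∀ z, z ∈ B01 ↔
      z ∈ Submodule.span A {z : L | ∃ i : ℤ, ∃ m ∈ M, z = T ^ i * m} := hB01
  obtain ⟨_, _, hft0, hft1, ⟨M', hM', hM'B1, hM'gen⟩, hsplit⟩ :=
    hRI A L T M d1 hT0 hM B0 B1 B01 hTB0 hTB1 hB0' hB1' hB01'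
  have hle0 : B0 ≤ B01 := by
    rintro z ⟨k, b, hb, hz⟩
    refine ⟨k, b * l0 ^ k, ?_, ?_⟩
    · rw [mul_add]; exact SetLike.mul_mem_graded hb (pow_mem_deg 𝒟 hF.m0 k)
    · rw [map_mul, map_mul, map_pow, ← hz, mul_pow]; ring
  have hle1 : B1 ≤ B01 := by
    rintro z ⟨k, b, hb, hz⟩
    refine ⟨k, b * l1 ^ k, ?_, ?_⟩
    · rw [mul_add]; exact SetLike.mul_mem_graded hb (pow_mem_deg 𝒟 hF.m1 k)
    · rw [map_mul, map_mul, map_pow, ← hz, mul_pow]; ring
  let C : Charts A B0 B1 B01 :=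
    { i0 := Subalgebra.inclusion hle0
      i1 := Subalgebra.inclusion hle1
      T := ⟨T, hTB0⟩
      S := ⟨T⁻¹, hTB1⟩
      hTS := Subtype.ext (mul_inv_cancel₀ hT0) }
  -- transcendence
  have hTtr : Transcendental A T := by
    have hl1y : l1 ∉ y := fun h => hl1x (hyx.le h)
    have hx' := chIdeal_prime 𝒟 L l1 Δ hF.m1 x hx.1 hl1x
    have hy' := chIdeal_prime 𝒟 L l1 Δ hF.m1 y hy.1 hl1y
    have hlt := chIdeal_lt 𝒟 L l1 Δ hF.m1 hF.pos y x hy.1 hy.2.1 hx.2.1 hl1y hyx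
    have hπ' : algebraMap A B0 π ∈ chIdeal 𝒟 L l1 Δ hF.m1 y := by
      refine ⟨0, algebraMap A D π, ?_, hπy, ?_⟩
      · rw [zero_mul]; exact SetLike.algebraMap_mem_graded 𝒟 π
      · rw [pow_zero, mul_one]; rfl
    have hMB0 : ∀ m ∈ M, m ∈ B0 := by
      intro m hm
      exact (hB0' m).2 (Submodule.subset_span ⟨0, m, hm, by rw [pow_zero, one_mul]⟩)
    let MB : Submodule A B0 := M.comap B0.val.toLinearMap
    have hMBmap : MB.map B0.val.toLinearMap = M := by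
      apply le_antisymm
      · exact Submodule.map_comap_le _ _
      · intro m hm
        exact ⟨⟨m, hMB0 m hm⟩, hm, rfl⟩
    have hMBfg : MB.FG := by
      apply Submodule.fg_of_fg_map_injective B0.val.toLinearMap Subtype.val_injective
      rw [hMBmap]; exact hM
    have hspan : ∀ z : B0, z ∈ Submodule.span A {z : B0 | ∃ i : ℕ, ∃ m ∈ MB,
        z = (⟨T, hTB0⟩ : B0) ^ i * m} := by
      intro z
      have h1 := (hB0' z.1).1 z.2
      have h2 : Submodule.map B0.val.toLinearMap (Submodule.span A {z : B0 | ∃ i : ℕ, ∃ m ∈ MB,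
        z = (⟨T, hTB0⟩ : B0) ^ i * m}) =
          Submodule.span A {z : L | ∃ i : ℕ, ∃ m ∈ M, z = T ^ i * m} := by
        rw [Submodule.map_span]
        congr 1
        ext w
        constructor
        · rintro ⟨v, ⟨i, m, hm, rfl⟩, rfl⟩
          exact ⟨i, m.1, hm, rfl⟩
        · rintro ⟨i, m, hm, rfl⟩
          exact ⟨(⟨T, hTB0⟩ : B0) ^ i * ⟨m, hMB0 m hm⟩, ⟨i, ⟨m, hMB0 m hm⟩, hm, rfl⟩, rfl⟩
      rw [← h2] at h1
      obtain ⟨v, hv, hvz⟩ := h1
      have : v = z := Subtype.ext hvz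
      rwa [← this]
    have hne : algebraMap A B0 π ≠ 0 := by
      intro h0
      exact hπL (congrArg Subtype.val h0)
    have htr := hTR A B0 π hπ hne ⟨T, hTB0⟩ MB hMBfg hspan _ _ hx' hy' hπ' hlt
    intro halg
    apply htr
    obtain ⟨P, hP0, hP⟩ := halg
    refine ⟨P, hP0, ?_⟩
    apply Subtype.ext
    have h3 : ((Polynomial.aeval (⟨T, hTB0⟩ : B0) P : B0) : L) = Polynomial.aeval T P := by
      have := Polynomial.aeval_algHom_apply B0.val (⟨T, hTB0⟩ : B0) P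
      exact this.symm
    rw [h3, hP]; rfl
  -- finite generation of sections
  have hHNfg : ∀ N, (HN C N).FG := by
    intro N
    have h1 := hHN A L T hTtr M hM d1 N
    set H' := (Submodule.span A {z : L | ∃ i : ℕ, ∃ m ∈ M, z = T ^ i * m}) ⊓
      (Submodule.span A {z : L | ∃ i : ℕ, ∃ m ∈ M, T ^ (i + d1) * z = T ^ N * m}) with hH'
    have hmem : ∀ z : HN C N, (z.1.1 : L) ∈ H' := by
      rintro ⟨⟨z0, z1⟩, hz⟩
      refine ⟨(hB0' _).1 z0.2, ?_⟩
      have hz' : (z0 : L) = T ^ N * (z1 : L) := congrArg Subtype.val hz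
      have h2 := (hB1' _).1 z1.2
      have h3 : ∀ w ∈ Submodule.span A {z : L | ∃ i : ℕ, ∃ m ∈ M, z = T⁻¹ ^ (i + d1) * m},
          T ^ N * w ∈ Submodule.span A {z : L | ∃ i : ℕ, ∃ m ∈ M, T ^ (i + d1) * z = T ^ N * m} := by
        intro w hw
        induction hw using Submodule.span_induction with
        | mem w hw =>
          obtain ⟨i, m, hm, rfl⟩ := hw
          apply Submodule.subset_span
          refine ⟨i, m, hm, ?_⟩
          rw [inv_pow]
          field_simp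
        | zero => rw [mul_zero]; exact Submodule.zero_mem _
        | add w1 w2 _ _ h1 h2 => rw [mul_add]; exact Submodule.add_mem _ h1 h2
        | smul c w _ h => rw [mul_smul_comm]; exact Submodule.smul_mem _ c h
      show (z0 : L) ∈ _
      rw [hz']
      exact h3 _ h2
    let f : HN C N →ₗ[A] H' :=
      { toFun := fun z => ⟨(z.1.1 : L), hmem z⟩
        map_add' := fun _ _ => rfl
        map_smul' := fun _ _ => rfl }
    have hf : Function.Injective f := by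
      rintro ⟨⟨z0, z1⟩, hz⟩ ⟨⟨w0, w1⟩, hw⟩ h
      have h4 : (z0 : L) = (w0 : L) := by
        have h0 := congrArg (fun v : H' => (v : L)) h
        exact h0
      have hz' : (z0 : L) = T ^ N * (z1 : L) := congrArg Subtype.val hz
      have hw' : (w0 : L) = T ^ N * (w1 : L) := congrArg Subtype.val hw
      have h5 : (z1 : L) = (w1 : L) := by
        apply mul_left_cancel₀ (pow_ne_zero N hT0)
        rw [← hz', ← hw', h4]
      have h6 : z0 = w0 := Subtype.ext h4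
      have h7 : z1 = w1 := Subtype.ext h5
      subst h6; subst h7; rfl
    have : Module.Finite A H' := Module.Finite.iff_fg.2 h1
    have : IsNoetherian A H' := isNoetherian_of_isNoetherianRing_of_finite A H'
    have : Module.Finite A (HN C N) := Module.Finite.of_injective f hf
    exact Module.Finite.iff_fg.1 inferInstance
  -- the data b, c, b1
  have hbB0 : algebraMap D L β ^ Δ / ll1 ^ m ∈ B0 := by
    refine ⟨m, β ^ Δ, ?_, ?_⟩
    · have := pow_mem_deg 𝒟 hβ Δ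
      rwa [mul_comm] at this
    · rw [map_pow]; exact div_mul_cancel₀ _ (pow_ne_zero _ hll1n)
  have hcB0 : algebraMap D L α * algebraMap D L β ^ (Δ - 1) / ll1 ^ m ∈ B0 := by
    refine ⟨m, α * β ^ (Δ - 1), ?_, ?_⟩
    · have h1 := SetLike.mul_mem_graded hα (pow_mem_deg 𝒟 hβ (Δ - 1))
      have h2 : m + (Δ - 1) * m = m * Δ := by
        have := hF.pos
        obtain ⟨t, rfl⟩ : ∃ t, Δ = t + 1 := ⟨Δ - 1, by omega⟩
        simp only [Nat.add_sub_cancel]; ring
      rwa [h2] at h1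
    · rw [map_mul, map_pow]; exact div_mul_cancel₀ _ (pow_ne_zero _ hll1n)
  have hb1B1 : algebraMap D L β ^ Δ / ll0 ^ m ∈ B1 := by
    refine ⟨m, β ^ Δ, ?_, ?_⟩
    · have := pow_mem_deg 𝒟 hβ Δ
      rwa [mul_comm] at this
    · rw [map_pow]; exact div_mul_cancel₀ _ (pow_ne_zero _ hll0n)
  -- inverse modulo π
  obtain ⟨k, hk, e', he', c', hc', heq⟩ := hNU A D 𝒟 π m (Δ + Δ) (by have := hF.pos; omega)
    (deg_zero 𝒟 hRC.gen) hRC.gen β hβ (l0 * l1) hl01 hNull
  obtain ⟨w, hw, hweq⟩ := null_pow 𝒟 π m (Δ + Δ) k Δ hF.pos β (l0 * l1) e' c' hβ hl01 hk he' hc' heq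
  have hll01 : algebraMap D L (l0 * l1) ≠ 0 := by
    rw [map_mul]; exact mul_ne_zero hll0n hll1n
  have hb'mem : algebraMap D L (e' ^ Δ * l1 ^ m) / algebraMap D L (l0 * l1) ^ (k * Δ) ∈ B01 := by
    refine ⟨k * Δ, e' ^ Δ * l1 ^ m, ?_, div_mul_cancel₀ _ (pow_ne_zero _ hll01)⟩
    have h1 := SetLike.mul_mem_graded (pow_mem_deg 𝒟 he' Δ) (pow_mem_deg 𝒟 hF.m1 m)
    have h2 : Δ * (k * (Δ + Δ) - m) + m * Δ = k * Δ * (Δ + Δ) := by
      obtain ⟨t, ht⟩ : ∃ t, k * (Δ + Δ) = m + t := ⟨k * (Δ + Δ) - m, by omega⟩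
      rw [ht, Nat.add_sub_cancel_left]
      calc Δ * t + m * Δ = Δ * (m + t) := by ring
        _ = Δ * (k * (Δ + Δ)) := by rw [ht]
        _ = k * Δ * (Δ + Δ) := by ring
    rwa [h2] at h1
  have hwmem : algebraMap D L w / algebraMap D L (l0 * l1) ^ (k * Δ) ∈ B01 :=
    ⟨k * Δ, w, hw, div_mul_cancel₀ _ (pow_ne_zero _ hll01)⟩
  have : Algebra.FiniteType A B0 := hft0
  have : Algebra.FiniteType A B1 := hft1
  have tf0 : Module.IsTorsionFree A B0 := inferInstance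
  have : Module.Flat A B0 := inferInstance
  have : Module.Flat A B1 := inferInstance
  have : Module.Flat A B01 := inferInstance
  have hcert := hHC A B0 B1 B01 C p hp π ε hπ e a r hpe hε ha hea
    (by
      intro z hz
      have h1 : algebraMap D L (algebraMap A D π) * (z : L) = 0 := congrArg Subtype.val hz
      rcases mul_eq_zero.1 h1 with h2 | h2
      · exact absurd h2 hπL
      · exact Subtype.ext h2)
    (by
      have hM'B : ∀ m ∈ M', m ∈ B1 := fun m hm => hM'B1 hm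
      let MB : Submodule A B1 := M'.comap B1.val.toLinearMap
      have hMBmap : MB.map B1.val.toLinearMap = M' := by
        apply le_antisymm
        · exact Submodule.map_comap_le _ _
        · intro m hm
          exact ⟨⟨m, hM'B m hm⟩, hm, rfl⟩
      refine ⟨MB, ?_, ?_⟩
      · apply Submodule.fg_of_fg_map_injective B1.val.toLinearMap Subtype.val_injective
        rw [hMBmap]; exact hM'
      · intro z
        obtain ⟨m', hm', c'', hc'', hz⟩ := hM'gen z.1 z.2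
        exact ⟨⟨m', hM'B m' hm'⟩, hm', ⟨c'', hc''⟩, Subtype.ext hz⟩)
    ⟨_, hbB0⟩ ⟨_, hcB0⟩ ⟨_, hb1B1⟩ d1 m (hHNfg _)
    (by
      apply Subtype.ext
      show algebraMap D L β ^ Δ / ll1 ^ m = T ^ m * (algebraMap D L β ^ Δ / ll0 ^ m)
      rw [hT, div_pow]
      field_simp)
    (by
      refine ⟨⟨_, hb'mem⟩, ⟨_, hwmem⟩, ?_⟩
      apply Subtype.ext
      show algebraMap D L β ^ Δ / ll1 ^ m *
        (algebraMap D L (e' ^ Δ * l1 ^ m) / algebraMap D L (l0 * l1) ^ (k * Δ)) - 1 =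
        algebraMap D L (algebraMap A D π) *
          (algebraMap D L w / algebraMap D L (l0 * l1) ^ (k * Δ))
      have h1 : algebraMap D L β ^ Δ * algebraMap D L e' ^ Δ -
          algebraMap D L (l0 * l1) ^ (k * Δ) =
          algebraMap D L (algebraMap A D π) * algebraMap D L w := by
        rw [← map_pow, ← map_pow, ← map_pow, ← map_mul, ← map_sub, hweq, map_mul]
      have h2 : algebraMap D L (l0 * l1) ^ (k * Δ) ≠ 0 := pow_ne_zero _ hll01
      have h3 : ll1 ^ m ≠ 0 := pow_ne_zero _ hll1n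
      rw [map_mul, map_pow, map_pow, ← hll1]
      generalize algebraMap D L (l0 * l1) ^ (k * Δ) = Y at h1 h2 ⊢
      generalize ll1 ^ m = X at h3 ⊢
      field_simp
      linear_combination h1)
    (by
      intro N' hN' z
      obtain ⟨z0, hz0, z1, hz1, hz⟩ := hsplit N' hN' z.1 z.2
      exact ⟨⟨z0, hz0⟩, ⟨z1, hz1⟩, Subtype.ext hz⟩)
  obtain ⟨η0, f0, f1, s0, s1, g0, η1, i, g1, d1', s2, s3, s4, s5, h1, h2, h3, h4, h5, h6⟩ := hcert
  refine ⟨d1, η0.1, η0.2, f0.1, f0.2, f1.1, f1.2, s0.1, s0.2, s1.1, s1.2, g0.1, g0.2,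
    η1.1, η1.2, i.1, i.2, g1.1, g1.2, d1'.1, d1'.2, s2.1, s2.2, s3.1, s3.2, s4.1, s4.2,
    s5.1, s5.2, congrArg Subtype.val h1, congrArg Subtype.val h2, congrArg Subtype.val h3,
    congrArg Subtype.val h4, congrArg Subtype.val h5, congrArg Subtype.val h6⟩

end Pool.Agent.H12.KP
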