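import Pool.Agent.H12.KP.Targets4

/-! Preparations for CERTL (helper12): degree pieces, primes of a chart. -/

namespace Pool.Agent.H12.KP

universe u v

section deg

variable {A : Type u} {D : Type v} [CommRing A] [CommRing D] [Algebra A D]
  (𝒟 : ℕ → Submodule A D) [GradedAlgebra 𝒟]

theorem pow_le_deg (d : ℕ) : (𝒟 1) ^ d ≤ 𝒟 d := by
  induction d with
  | zero =>
    rw [pow_zero, Submodule.one_le]
    exact SetLike.one_mem_graded 𝒟
  | succ n ih =>
    rw [pow_succ]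
    refine Submodule.mul_le.2 ?_
    intro a ha b hb
    exact SetLike.mul_mem_graded (ih ha) hb

open DirectSum in
theorem proj_mem_pow (hgen : Algebra.adjoin A (𝒟 1 : Set D) = ⊤) (z : D) :
    ∀ d, (GradedRing.proj 𝒟 d z) ∈ (𝒟 1) ^ d := by
  classical
  have hz : z ∈ Algebra.adjoin A (𝒟 1 : Set D) := by rw [hgen]; trivial
  induction hz using Algebra.adjoin_induction with
  | mem x hx =>
    intro d
    have hx1 : x ∈ 𝒟 1 := hx
    by_cases h : d = 1
    · subst h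
      rw [GradedRing.proj_apply, DirectSum.decompose_of_mem_same 𝒟 hx1, pow_one]
      exact hx1
    · rw [GradedRing.proj_apply, DirectSum.decompose_of_mem_ne 𝒟 hx1 (fun h' => h h'.symm)]
      exact Submodule.zero_mem _
  | algebraMap r =>
    intro d
    have h0 : algebraMap A D r ∈ 𝒟 0 := SetLike.algebraMap_mem_graded 𝒟 r
    by_cases h : d = 0
    · subst h
      rw [GradedRing.proj_apply, DirectSum.decompose_of_mem_same 𝒟 h0, pow_zero]
      exact Submodule.algebraMap_mem r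
    · rw [GradedRing.proj_apply, DirectSum.decompose_of_mem_ne 𝒟 h0 (fun h' => h h'.symm)]
      exact Submodule.zero_mem _
  | add x y _ _ hx hy =>
    intro d
    rw [map_add]
    exact Submodule.add_mem _ (hx d) (hy d)
  | mul x y _ _ hx hy =>
    intro d
    have h1 : x * y = ∑ i ∈ DFinsupp.support (decompose 𝒟 x), ∑ j ∈ DFinsupp.support (decompose 𝒟 y),
        (decompose 𝒟 x i : D) * (decompose 𝒟 y j : D) := by
      conv_lhs => rw [← sum_support_decompose 𝒟 x, ← sum_support_decompose 𝒟 y]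
      rw [Finset.sum_mul_sum]
    rw [h1, map_sum]
    refine Submodule.sum_mem _ ?_
    intro i _
    rw [map_sum]
    refine Submodule.sum_mem _ ?_
    intro j _
    have hm : (decompose 𝒟 x i : D) * (decompose 𝒟 y j : D) ∈ 𝒟 (i + j) :=
      SetLike.mul_mem_graded (decompose 𝒟 x i).2 (decompose 𝒟 y j).2
    by_cases h : i + j = d
    · subst h
      rw [GradedRing.proj_apply, DirectSum.decompose_of_mem_same 𝒟 hm, pow_add]
      exact Submodule.mul_mem_mul (hx i) (hy j)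
    · rw [GradedRing.proj_apply, DirectSum.decompose_of_mem_ne 𝒟 hm h]
      exact Submodule.zero_mem _

theorem deg_eq_pow (hgen : Algebra.adjoin A (𝒟 1 : Set D) = ⊤) (d : ℕ) : 𝒟 d = (𝒟 1) ^ d := by
  refine le_antisymm ?_ (pow_le_deg 𝒟 d)
  intro z hz
  have := proj_mem_pow 𝒟 hgen z d
  rwa [GradedRing.proj_apply, DirectSum.decompose_of_mem_same 𝒟 hz] at this

theorem deg_fg (hfg : (𝒟 1).FG) (hgen : Algebra.adjoin A (𝒟 1 : Set D) = ⊤) (d : ℕ) :
    (𝒟 d).FG := by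
  rw [deg_eq_pow 𝒟 hgen d]
  exact Submodule.FG.pow hfg d

theorem deg_zero (hgen : Algebra.adjoin A (𝒟 1 : Set D) = ⊤) (z : D) (hz : z ∈ 𝒟 0) :
    ∃ x : A, z = algebraMap A D x := by
  rw [deg_eq_pow 𝒟 hgen 0, pow_zero] at hz
  obtain ⟨x, hx⟩ := Submodule.mem_one.1 hz
  exact ⟨x, hx.symm⟩

theorem pow_mem_deg {a : D} {m : ℕ} (ha : a ∈ 𝒟 m) (k : ℕ) : a ^ k ∈ 𝒟 (k * m) := by
  have := SetLike.pow_mem_graded k ha
  rwa [smul_eq_mul] at this

end deg

section prime

variable {A : Type u} {D : Type u} [CommRing A] [CommRing D] [IsDomain D] [Algebra A D]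
  (𝒟 : ℕ → Submodule A D) [GradedAlgebra 𝒟] (L : Type u) [Field L] [Algebra D L]
  [IsFractionRing D L] [Algebra A L] [IsScalarTower A D L]

/-- The ideal of a chart attached to a homogeneous ideal. -/
def chIdeal (l : D) (Δ : ℕ) (hl : l ∈ 𝒟 Δ) (P : Ideal D) : Ideal (ChartA 𝒟 L l Δ hl) where
  carrier := {z | ∃ k : ℕ, ∃ a ∈ 𝒟 (k * Δ), a ∈ P ∧ (z : L) * algebraMap D L l ^ k = algebraMap D L a}
  zero_mem' := ⟨0, 0, Submodule.zero_mem _, P.zero_mem, by simp⟩
  add_mem' := by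
    rintro x y ⟨k, a, ha, haP, hx⟩ ⟨k', a', ha', haP', hy⟩
    refine ⟨k + k', a * l ^ k' + a' * l ^ k, ?_, ?_, ?_⟩
    · refine Submodule.add_mem _ ?_ ?_
      · rw [add_mul]
        exact SetLike.mul_mem_graded ha (pow_mem_deg 𝒟 hl k')
      · rw [add_mul, add_comm]
        exact SetLike.mul_mem_graded ha' (pow_mem_deg 𝒟 hl k)
    · exact P.add_mem (P.mul_mem_right _ haP) (P.mul_mem_right _ haP')
    · have : ((x + y : ChartA 𝒟 L l Δ hl) : L) = (x : L) + (y : L) := rfl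
      rw [this, map_add, map_mul, map_mul, map_pow, map_pow, ← hx, ← hy, pow_add]; ring
  smul_mem' := by
    rintro ⟨c, k, a, ha, hc⟩ x ⟨k', a', ha', haP', hy⟩
    refine ⟨k + k', a * a', ?_, P.mul_mem_left _ haP', ?_⟩
    · rw [add_mul]; exact SetLike.mul_mem_graded ha ha'
    · have : (((⟨c, k, a, ha, hc⟩ : ChartA 𝒟 L l Δ hl) • x : ChartA 𝒟 L l Δ hl) : L) =
        c * (x : L) := rfl
      rw [this, map_mul, ← hc, ← hy, pow_add]; ring

theorem chIdeal_prime (l : D) (Δ : ℕ) (hl : l ∈ 𝒟 Δ) (P : Ideal D) (hP : P.IsPrime) (hlP : l ∉ P) :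
    (chIdeal 𝒟 L l Δ hl P).IsPrime := by
  have hinj : Function.Injective (algebraMap D L) := IsFractionRing.injective D L
  constructor
  · intro h
    have h1 : (1 : ChartA 𝒟 L l Δ hl) ∈ chIdeal 𝒟 L l Δ hl P := by rw [h]; trivial
    obtain ⟨k, a, ha, haP, h1⟩ := h1
    have h2 : algebraMap D L (l ^ k) = algebraMap D L a := by
      rw [← h1, map_pow]
      have : ((1 : ChartA 𝒟 L l Δ hl) : L) = 1 := rfl
      rw [this, one_mul]
    have h3 := hinj h2
    exact hlP (hP.mem_of_pow_mem k (h3 ▸ haP))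
  · rintro ⟨z, k, a, ha, hz⟩ ⟨w, k', a', ha', hw⟩ ⟨k'', a'', ha'', haP, hzw⟩
    have e1 : (((⟨z, k, a, ha, hz⟩ : ChartA 𝒟 L l Δ hl) * ⟨w, k', a', ha', hw⟩ :
      ChartA 𝒟 L l Δ hl) : L) = z * w := rfl
    rw [e1] at hzw
    have e2 : algebraMap D L (a * a' * l ^ k'') = algebraMap D L (a'' * l ^ (k + k')) := by
      rw [map_mul, map_mul, map_mul, map_pow, map_pow, ← hz, ← hw, ← hzw, pow_add]; ring
    have e3 := hinj e2
    have e4 : a * a' * l ^ k'' ∈ P := by rw [e3]; exact P.mul_mem_right _ haP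
    rcases hP.mem_or_mem e4 with e5 | e5
    · rcases hP.mem_or_mem e5 with e6 | e6
      · left; exact ⟨k, a, ha, e6, hz⟩
      · right; exact ⟨k', a', ha', e6, hw⟩
    · exact absurd (hP.mem_of_pow_mem _ e5) hlP

theorem chIdeal_lt (l : D) (Δ : ℕ) (hl : l ∈ 𝒟 Δ) (hΔ : 0 < Δ) (P Q : Ideal D) (hP : P.IsPrime)
    (hPh : P.IsHomogeneous 𝒟) (hQh : Q.IsHomogeneous 𝒟)
    (hlP : l ∉ P) (h : P < Q) : chIdeal 𝒟 L l Δ hl P < chIdeal 𝒟 L l Δ hl Q := by
  have hinj : Function.Injective (algebraMap D L) := IsFractionRing.injective D L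
  have hl0 : algebraMap D L l ≠ 0 := by
    intro h0
    have : l = 0 := hinj (by rw [h0, map_zero])
    exact hlP (this ▸ P.zero_mem)
  refine lt_of_le_of_ne ?_ ?_
  · rintro z ⟨k, a, ha, haP, hz⟩
    exact ⟨k, a, ha, h.le haP, hz⟩
  · intro heq
    classical
    obtain ⟨b, hbQ, hbP⟩ := SetLike.exists_of_lt h
    have hex : ∃ d, (DirectSum.decompose 𝒟 b d : D) ∉ P := by
      by_contra hcon
      push Not at hcon
      apply hbP
      rw [← DirectSum.sum_support_decompose 𝒟 b]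
      exact Ideal.sum_mem _ (fun i _ => hcon i)
    obtain ⟨d, hd⟩ := hex
    set a : D := (DirectSum.decompose 𝒟 b d : D) with hadef
    have had : a ∈ 𝒟 d := (DirectSum.decompose 𝒟 b d).2
    have haQ : a ∈ Q := hQh d hbQ
    have hpow : a ^ Δ ∈ 𝒟 (d * Δ) := by
      have := pow_mem_deg 𝒟 had Δ
      rwa [mul_comm] at this
    have hzm : algebraMap D L (a ^ Δ) / algebraMap D L l ^ d ∈ ChartA 𝒟 L l Δ hl := by
      refine ⟨d, a ^ Δ, hpow, ?_⟩
      exact div_mul_cancel₀ _ (pow_ne_zero _ hl0)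
    have hzQ : (⟨_, hzm⟩ : ChartA 𝒟 L l Δ hl) ∈ chIdeal 𝒟 L l Δ hl Q :=
      ⟨d, a ^ Δ, hpow, Ideal.pow_mem_of_mem Q haQ Δ hΔ, div_mul_cancel₀ _ (pow_ne_zero _ hl0)⟩
    rw [← heq] at hzQ
    obtain ⟨k, a', ha', haP', hz⟩ := hzQ
    have hz' : algebraMap D L (a ^ Δ) / algebraMap D L l ^ d * algebraMap D L l ^ k =
      algebraMap D L a' := hz
    have e1 : algebraMap D L (a ^ Δ * l ^ k) = algebraMap D L (a' * l ^ d) := by
      rw [map_mul, map_mul, ← hz', map_pow (algebraMap D L) l, map_pow (algebraMap D L) l]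
      have := pow_ne_zero d hl0
      field_simp
    have e2 := hinj e1
    have e3 : a ^ Δ * l ^ k ∈ P := by rw [e2]; exact P.mul_mem_right _ haP'
    rcases hP.mem_or_mem e3 with e4 | e4
    · exact hd (hP.mem_of_pow_mem _ e4)
    · exact hlP (hP.mem_of_pow_mem _ e4)

end prime

end Pool.Agent.H12.KP
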