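import Pool.Agent.H68.KP.AHN
import Pool.Agent.H58.KP.ALG
import Pool.Agent.H46.KP.APX
import Pool.Agent.H60.KP.AVOID
import Pool.Agent.H77.KP.BCH
import Pool.Agent.H78.KP.BIN
import Pool.Agent.H54.KP.CDEN
import Pool.Agent.H26.KP.CERT
import Pool.Agent.H12.KP.CERTL
import Pool.Agent.H36.KP.CHGEN
import Pool.Agent.H98.KP.CHRING
import Pool.Agent.H24.KP.COMPL
import Pool.Agent.H82.KP.CONC
import Pool.Agent.H77.KP.CORE
import Pool.Agent.H39.KP.FGLIM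
import Pool.Agent.H60.KP.FINPT
import Pool.Agent.H2.KP.FORMS
import Pool.Agent.H71.KP.HCERT
import Pool.Agent.H38.KP.HNFG
import Pool.Agent.H58.KP.INEL
import Pool.Agent.H4.KP.ITER
import Pool.Agent.H58.KP.KRULL
import Pool.Agent.H34.KP.NAK
import Pool.Agent.H40.KP.NH
import Pool.Agent.H70.KP.NULL
import Pool.Agent.H71.KP.P1
import Pool.Agent.H11.KP.PRIM
import Pool.Agent.H3.KP.RED
import Pool.Agent.H94.KP.TRANS
import Pool.Agent.H86.KP.TRANSC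
import Pool.Agent.H74.KP.WAG

/-!
# Project KEW, block P1: assembly (helper12)
-/

namespace Pool.Agent.H12.KP

universe u

theorem done_AVOID : S_AVOID.{u,u} := Pool.Agent.H60.KP.pf_AVOID

theorem done_RED : S_RED.{u} :=
  Pool.Agent.H3.KP.pf_RED Pool.Agent.H74.KP.pf_WAG (Pool.Agent.H54.KP.pf_CDEN done_AVOID)

theorem done_ITER : S_ITER.{u,u} := Pool.Agent.H4.KP.pf_ITER Pool.Agent.H78.KP.pf_BIN

theorem done_CERT : S_CERT.{u,u} :=
  Pool.Agent.H26.KP.pf_CERT (Pool.Agent.H58.KP.pf_ALG done_ITER Pool.Agent.H39.KP.pf_FGLIM)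
    (Pool.Agent.H58.KP.pf_INEL Pool.Agent.H39.KP.pf_FGLIM) Pool.Agent.H58.KP.pf_KRULL

theorem done_HCERT : S_HCERT.{u} :=
  Pool.Agent.H71.KP.pf_HCERT Pool.Agent.H24.KP.pf_COMPL Pool.Agent.H68.KP.pf_AHN
    Pool.Agent.H77.KP.pf_BCH done_CERT
    (Pool.Agent.H46.KP.pf_APX Pool.Agent.H40.KP.pf_NH Pool.Agent.H11.KP.pf_PRIM)
    Pool.Agent.H94.KP.pf_TRANS

theorem done_CERTL : S_CERTL.{u} :=
  pf_CERTL Pool.Agent.H36.KP.pf_CHGEN Pool.Agent.H98.KP.pf_CHRING Pool.Agent.H38.KP.pf_HNFG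
    Pool.Agent.H86.KP.pf_TRANSC Pool.Agent.H70.KP.pf_NULL done_HCERT

theorem done_FORMS : S_FORMS.{u} :=
  Pool.Agent.H2.KP.pf_FORMS done_AVOID Pool.Agent.H60.KP.pf_FINPT Pool.Agent.H34.KP.pf_NAK

theorem done_CORE : S_CORE.{u} :=
  Pool.Agent.H77.KP.pf_CORE done_FORMS done_CERTL Pool.Agent.H82.KP.pf_CONC

/-- Theorem (P1) of project KEW. -/
theorem done_P1 : S_P1.{u} := Pool.Agent.H71.KP.pf_P1 done_RED done_CORE

end Pool.Agent.H12.KP
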