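import Mathlib

/-!
# Project KEW, block (i): targets of the abstract ring rows (helper12)

Everything is elementary commutative algebra.  `q = p ^ r`, `n0 = r * e + a`.
-/

namespace Pool.Agent.H12.KP

open Polynomial

universe u v w

/-! ### Binomial lemma -/

/-- BIN: `(x + π^k y)^(p^r) = x^(p^r) + π^(k+re) (ε^r x^(p^r-1) y + π z)` if `p = ε π^e`, `e < a (p-1)`, `a ≤ k`. -/
def S_BIN : Prop :=
  ∀ (R : Type u) [CommRing R] (p : ℕ), p.Prime → ∀ (π ε : R) (e a : ℕ), (p : R) = ε * π ^ e →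
    1 ≤ a → e < a * (p - 1) → ∀ (r k : ℕ), a ≤ k → ∀ x y : R,
    ∃ z : R, (x + π ^ k * y) ^ (p ^ r) =
      x ^ (p ^ r) + π ^ (k + r * e) * (ε ^ r * x ^ (p ^ r - 1) * y + π * z)

/-! ### The Newton iteration -/

/-- Hypotheses on two charts `B0 → B01 ← B1` with an element `π`, and `T = 1/S`. -/
structure Charts (A : Type u) (B0 B1 B01 : Type v) [CommRing A] [CommRing B0] [CommRing B1]
    [CommRing B01] [Algebra A B0] [Algebra A B1] [Algebra A B01] where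
  i0 : B0 →ₐ[A] B01
  i1 : B1 →ₐ[A] B01
  T : B0
  S : B1
  hTS : i0 T * i1 S = 1

/-- ITER: successive approximation. -/
def S_ITER : Prop :=
  ∀ (A : Type u) (B0 B1 B01 : Type v) [CommRing A] [CommRing B0] [CommRing B1] [CommRing B01]
    [Algebra A B0] [Algebra A B1] [Algebra A B01] (C : Charts A B0 B1 B01)
    (p : ℕ), p.Prime → ∀ (π ε : A) (e a r : ℕ), (p : A) = ε * π ^ e → IsUnit ε →
    1 ≤ a → e < a * (p - 1) →
    ∀ (b c : B0) (N : ℕ),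
    (∃ b' : B01, algebraMap A B01 π ∣ C.i0 b * b' - 1) →
    (∀ z : B01, ∃ z0 z1, z = C.i0 z0 + C.i0 C.T ^ N * C.i1 z1) →
    ∃ (t : ℕ → B0) (τ : ℕ → B1), t 0 = 1 ∧ τ 0 = C.S ^ N ∧
      (∀ k, algebraMap A B0 π ^ (a + k) ∣ t (k + 1) - t k) ∧
      (∀ k, algebraMap A B1 π ^ (a + k) ∣ τ (k + 1) - τ k) ∧
      ∀ k, algebraMap A B01 π ^ (r * e + a + k) ∣
        C.i0 b * (C.i0 C.T ^ N * C.i1 (τ k)) ^ (p ^ r) -
          C.i0 (b + algebraMap A B0 π ^ (r * e + a) * c) * C.i0 (t k) ^ (p ^ r)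

/-- The module of the pairs `(z0, z1)` with `z0 = T^N z1`: sections of `O(N)`. -/
def HN {A : Type u} {B0 B1 B01 : Type v} [CommRing A] [CommRing B0] [CommRing B1]
    [CommRing B01] [Algebra A B0] [Algebra A B1] [Algebra A B01] (C : Charts A B0 B1 B01) (N : ℕ) :
    Submodule A (B0 × B1) where
  carrier := {z | C.i0 z.1 = C.i0 C.T ^ N * C.i1 z.2}
  add_mem' := by
    intro x y hx hy
    simp only [Set.mem_setOf_eq, Prod.fst_add, Prod.snd_add, map_add] at *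
    rw [hx, hy]; ring
  zero_mem' := by simp
  smul_mem' := by
    intro c x hx
    simp only [Set.mem_setOf_eq, Prod.smul_fst, Prod.smul_snd, map_smul] at *
    rw [hx, mul_smul_comm]

/-- `A` is `π`-adically complete in the sequential sense. -/
def SeqCompl {A : Type u} [CommRing A] (π : A) : Prop :=
  ∀ f : ℕ → A, (∀ k, π ^ k ∣ f (k + 1) - f k) → ∃ x, ∀ k, π ^ k ∣ x - f k

/-- FGLIM: limits in finitely generated modules. -/
def S_FGLIM : Prop :=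
  ∀ (A : Type u) (M : Type v) [CommRing A] [AddCommGroup M] [Module A M] (π : A), SeqCompl π →
    ∀ H : Submodule A M, H.FG → ∀ h : ℕ → M, (∀ k, h k ∈ H) →
    (∀ k, ∃ z ∈ H, h (k + 1) - h k = π ^ k • z) →
    ∃ x ∈ H, ∀ k, ∃ z ∈ H, x - h k = π ^ k • z

/-- ALG: algebraisation of the formal solution. -/
def S_ALG : Prop :=
  ∀ (A : Type u) (B0 B1 B01 : Type v) [CommRing A] [CommRing B0] [CommRing B1] [CommRing B01]
    [Algebra A B0] [Algebra A B1] [Algebra A B01] (C : Charts A B0 B1 B01)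
    (p : ℕ), p.Prime → ∀ (π ε : A) (e a r : ℕ), (p : A) = ε * π ^ e → IsUnit ε →
    1 ≤ a → e < a * (p - 1) → SeqCompl π →
    (∀ z : B01, algebraMap A B01 π * z = 0 → z = 0) →
    ∀ (b c : B0) (b1 : B1) (N j : ℕ), (HN C (j + N * p ^ r)).FG →
    C.i0 b = C.i0 C.T ^ j * C.i1 b1 →
    (∃ b' : B01, algebraMap A B01 π ∣ C.i0 b * b' - 1) →
    (∀ N', N ≤ N' → ∀ z : B01, ∃ z0 z1, z = C.i0 z0 + C.i0 C.T ^ N' * C.i1 z1) →
    ∃ (η0 : B0) (η1 : B1) (t : ℕ → B0) (τ : ℕ → B1),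
      C.i0 η0 = C.i0 C.T ^ (j + N * p ^ r) * C.i1 η1 ∧
      (∀ k, algebraMap A B0 π ∣ t k - 1) ∧
      (∀ k, algebraMap A B1 π ∣ τ k - C.S ^ N) ∧
      (∀ k, algebraMap A B1 π ^ k ∣ τ (k + 1) - τ k) ∧
      (∀ k, algebraMap A B0 π ^ k ∣
        η0 - (b + algebraMap A B0 π ^ (r * e + a) * c) * t k ^ (p ^ r)) ∧
      (∀ k, algebraMap A B1 π ^ k ∣ η1 - b1 * τ k ^ (p ^ r))

/-! ### The element `i` and the certificate -/

/-- INEL: `i = τ (1 - j)` with `j` in the ideal `(π, S)`. -/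
def S_INEL : Prop :=
  ∀ (A : Type u) (C : Type v) [CommRing A] [CommRing C] [Algebra A C] (π : A) (S : C),
    SeqCompl π →
    (∃ M : Submodule A C, M.FG ∧ ∀ z : C, ∃ m ∈ M, ∃ c, z = m + S * c) →
    ∀ (N : ℕ) (τ : ℕ → C), (∀ k, algebraMap A C π ∣ τ k - S ^ N) →
    (∀ k, algebraMap A C π ^ k ∣ τ (k + 1) - τ k) →
    ∃ (i : C) (j : ℕ → C), (∀ k, j k ∈ Ideal.span {algebraMap A C π, S}) ∧
      ∀ k, algebraMap A C π ^ k ∣ i - τ k * (1 - j k)

/-- KRULL: Krull's intersection theorem in the form we need. -/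
def S_KRULL : Prop :=
  ∀ (C : Type v) [CommRing C] [IsNoetherianRing C] (J : Ideal C) (x y : C),
    (∀ k, ∃ c, x - y * c ∈ J ^ k) → ∃ s ∈ J, ∃ c, (1 + s) * x = y * c

/-- CERT: the certificate over a complete base. -/
def S_CERT : Prop :=
  ∀ (A : Type u) (B0 B1 B01 : Type v) [CommRing A] [CommRing B0] [CommRing B1] [CommRing B01]
    [Algebra A B0] [Algebra A B1] [Algebra A B01] [IsNoetherianRing B0] [IsNoetherianRing B1]
    (C : Charts A B0 B1 B01)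
    (p : ℕ), p.Prime → ∀ (π ε : A) (e a r : ℕ), (p : A) = ε * π ^ e → IsUnit ε →
    1 ≤ a → e < a * (p - 1) → SeqCompl π →
    (∀ z : B01, algebraMap A B01 π * z = 0 → z = 0) →
    (∃ M : Submodule A B1, M.FG ∧ ∀ z : B1, ∃ m ∈ M, ∃ c, z = m + C.S * c) →
    ∀ (b c : B0) (b1 : B1) (N j : ℕ), (HN C (j + N * p ^ r)).FG →
    C.i0 b = C.i0 C.T ^ j * C.i1 b1 →
    (∃ b' : B01, algebraMap A B01 π ∣ C.i0 b * b' - 1) →
    (∀ N', N ≤ N' → ∀ z : B01, ∃ z0 z1, z = C.i0 z0 + C.i0 C.T ^ N' * C.i1 z1) →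
    ∃ (η0 f0 f1 s0 s1 g0 : B0) (η1 i g1 d1 s2 s3 s4 s5 : B1),
      C.i0 η0 = C.i0 C.T ^ (j + N * p ^ r) * C.i1 η1 ∧
      (1 + algebraMap A B0 π * s0) * η0 = (b + algebraMap A B0 π ^ (r * e + a) * c) * f0 ∧
      (1 + algebraMap A B0 π * s1) * (b + algebraMap A B0 π ^ (r * e + a) * c) = η0 * f1 ∧
      η0 = b + algebraMap A B0 π * g0 ∧
      (1 + algebraMap A B1 π * s2 + C.S * s3) * (b1 * i ^ (p ^ r)) = η1 * g1 ∧
      (1 + algebraMap A B1 π * s4 + C.S * s5) * η1 = b1 * i ^ (p ^ r) * d1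

end Pool.Agent.H12.KP
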