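import Pool.Agent.H12.KP.Targets

/-!
# Project KEW, block (i): henselian approximation and geometry (helper12)
-/

namespace Pool.Agent.H12.KP

open Polynomial TensorProduct

universe u v w

/-! ### Henselian discrete valuation rings -/

/-- NH: Newton-Hensel lemma for arbitrary polynomials over a henselian dvr. -/
def S_NH : Prop :=
  ∀ (A : Type u) [CommRing A] [IsDomain A] [IsDiscreteValuationRing A] [HenselianLocalRing A]
    (π : A), Irreducible π → ∀ (f : A[X]) (a0 ε : A) (m k : ℕ), 2 * m + 1 ≤ k →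
    π ^ k ∣ f.eval a0 → IsUnit ε → f.derivative.eval a0 = ε * π ^ m →
    ∃ a, f.eval a = 0 ∧ π ^ (k - m) ∣ a - a0

/-- Evaluation of a polynomial over a polynomial ring. -/
noncomputable def ev2 {A : Type u} {R : Type v} [CommRing A] [CommRing R] [Algebra A R] {m : ℕ}
    (t : Fin m → R) (θ : R) (G : (MvPolynomial (Fin m) A)[X]) : R :=
  G.eval₂ (MvPolynomial.aeval t : MvPolynomial (Fin m) A →ₐ[A] R).toRingHom θ

/-- PRIM: primitive element over a transcendence basis, denominators cleared. -/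
def S_PRIM : Prop :=
  ∀ (A : Type u) (R : Type v) [CommRing A] [IsDomain A] [IsNoetherianRing A] [CharZero A]
    [CommRing R] [IsDomain R] [Algebra A R], Function.Injective (algebraMap A R) →
    Algebra.FiniteType A R →
    ∃ (m : ℕ) (t : Fin m → R) (θ : R) (F : (MvPolynomial (Fin m) A)[X])
      (D : MvPolynomial (Fin m) A),
      AlgebraicIndependent A t ∧ D ≠ 0 ∧ ev2 t θ F = 0 ∧ ev2 t θ F.derivative ≠ 0 ∧
      (∀ x : R, ∃ (k : ℕ) (G : (MvPolynomial (Fin m) A)[X]),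
        MvPolynomial.aeval t D ^ k * x = ev2 t θ G) ∧
      ∀ G, ev2 t θ G = 0 → ∃ (k : ℕ) (H : (MvPolynomial (Fin m) A)[X]), C D ^ k * G = F * H

/-- The properties of the completion `Ah` of the dvr `A` that we use. -/
structure IsCompl {A : Type u} (Ah : Type v) [CommRing A] [CommRing Ah] [Algebra A Ah] (π : A) :
    Prop where
  domain : IsDomain Ah
  dense : ∀ (x : Ah) (k : ℕ), ∃ a : A, algebraMap A Ah π ^ k ∣ x - algebraMap A Ah a
  pure : ∀ (a : A) (k : ℕ), algebraMap A Ah π ^ k ∣ algebraMap A Ah a → π ^ k ∣ a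
  sep : ∀ x : Ah, (∀ k, algebraMap A Ah π ^ k ∣ x) → x = 0
  compl : SeqCompl (algebraMap A Ah π)

/-- COMPL: completions exist. -/
def S_COMPL : Prop :=
  ∀ (A : Type u) [CommRing A] [IsDomain A] [IsDiscreteValuationRing A] (π : A), Irreducible π →
    ∃ (Ah : Type u) (_ : CommRing Ah) (_ : Algebra A Ah), IsCompl Ah π

/-- APX: a finitely generated subalgebra of the completion has a retraction to `A`. -/
def S_APX : Prop :=
  ∀ (A : Type u) (Ah : Type v) [CommRing A] [IsDomain A] [IsDiscreteValuationRing A]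
    [HenselianLocalRing A] [CharZero A] [CommRing Ah] [Algebra A Ah] (π : A), Irreducible π →
    IsCompl Ah π → ∀ R : Subalgebra A Ah, R.FG → Nonempty (R →ₐ[A] A)

/-- Base change of charts. -/
noncomputable def Charts.bc {A : Type u} {B0 B1 B01 : Type v} [CommRing A] [CommRing B0]
    [CommRing B1] [CommRing B01] [Algebra A B0] [Algebra A B1] [Algebra A B01]
    (C : Charts A B0 B1 B01) (Ah : Type v) [CommRing Ah] [Algebra A Ah] :
    Charts Ah (Ah ⊗[A] B0) (Ah ⊗[A] B1) (Ah ⊗[A] B01) where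
  i0 := Algebra.TensorProduct.map (AlgHom.id Ah Ah) C.i0
  i1 := Algebra.TensorProduct.map (AlgHom.id Ah Ah) C.i1
  T := 1 ⊗ₜ C.T
  S := 1 ⊗ₜ C.S
  hTS := by
    simp only [Algebra.TensorProduct.map_tmul, AlgHom.coe_id, id_eq,
      Algebra.TensorProduct.tmul_mul_tmul, mul_one, C.hTS]
    rfl

/-- The six identities of the certificate. -/
def Cert {A : Type u} {B0 B1 B01 : Type v} [CommRing A] [CommRing B0] [CommRing B1]
    [CommRing B01] [Algebra A B0] [Algebra A B1] [Algebra A B01] (C : Charts A B0 B1 B01)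
    (π : A) (n0 q M : ℕ) (b c : B0) (b1 : B1) : Prop :=
  ∃ (η0 f0 f1 s0 s1 g0 : B0) (η1 i g1 d1 s2 s3 s4 s5 : B1),
      C.i0 η0 = C.i0 C.T ^ M * C.i1 η1 ∧
      (1 + algebraMap A B0 π * s0) * η0 = (b + algebraMap A B0 π ^ n0 * c) * f0 ∧
      (1 + algebraMap A B0 π * s1) * (b + algebraMap A B0 π ^ n0 * c) = η0 * f1 ∧
      η0 = b + algebraMap A B0 π * g0 ∧
      (1 + algebraMap A B1 π * s2 + C.S * s3) * (b1 * i ^ q) = η1 * g1 ∧
      (1 + algebraMap A B1 π * s4 + C.S * s5) * η1 = b1 * i ^ q * d1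

/-- TRANS: transport of the certificate from `Ah` to `A`. -/
def S_TRANS : Prop :=
  ∀ (A : Type u) (Ah B0 B1 B01 : Type u) [CommRing A] [IsDomain A] [IsDiscreteValuationRing A]
    [CommRing Ah] [Algebra A Ah] [CommRing B0] [CommRing B1] [CommRing B01]
    [Algebra A B0] [Algebra A B1] [Algebra A B01] [Module.Flat A B0] [Module.Flat A B1]
    [Module.Flat A B01]
    (_ : ∀ R : Subalgebra A Ah, R.FG → Nonempty (R →ₐ[A] A))
    (C : Charts A B0 B1 B01) (π : A) (n0 q M : ℕ) (b c : B0) (b1 : B1),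
    Cert (C.bc Ah) (algebraMap A Ah π) n0 q M (1 ⊗ₜ b) (1 ⊗ₜ c) (1 ⊗ₜ b1) →
    Cert C π n0 q M b c b1

/-- BCH: the hypotheses of the certificate are stable under base change to `Ah`. -/
def S_BCH : Prop :=
  ∀ (A : Type u) (Ah B0 B1 B01 : Type u) [CommRing A] [IsDomain A] [IsDiscreteValuationRing A]
    [CommRing Ah] [Algebra A Ah] [CommRing B0] [CommRing B1] [CommRing B01]
    [Algebra A B0] [Algebra A B1] [Algebra A B01]
    (C : Charts A B0 B1 B01) (π : A), Irreducible π → IsCompl Ah π →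
    (∀ z : B01, algebraMap A B01 π * z = 0 → z = 0) →
    (∀ z : Ah ⊗[A] B01, algebraMap Ah (Ah ⊗[A] B01) (algebraMap A Ah π) * z = 0 → z = 0) ∧
    (∀ N, (HN C N).FG →
      (∀ z : B01, ∃ z0 z1, z = C.i0 z0 + C.i0 C.T ^ N * C.i1 z1) → (HN (C.bc Ah) N).FG) ∧
    (∀ N, (∀ z : B01, ∃ z0 z1, z = C.i0 z0 + C.i0 C.T ^ N * C.i1 z1) →
      ∀ z : Ah ⊗[A] B01, ∃ z0 z1,
        z = (C.bc Ah).i0 z0 + (C.bc Ah).i0 (C.bc Ah).T ^ N * (C.bc Ah).i1 z1) ∧
    ((∃ M : Submodule A B1, M.FG ∧ ∀ z : B1, ∃ m ∈ M, ∃ c, z = m + C.S * c) →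
      ∃ M : Submodule Ah (Ah ⊗[A] B1), M.FG ∧ ∀ z, ∃ m ∈ M, ∃ c, z = m + (C.bc Ah).S * c)

/-! ### Graded domains -/

section Graded

variable {A : Type u} {D : Type v} [CommRing A] [CommRing D] [Algebra A D] (𝒟 : ℕ → Submodule A D)

/-- Relevant homogeneous primes: the points of Proj. -/
def Rel [GradedAlgebra 𝒟] (P : Ideal D) : Prop :=
  P.IsPrime ∧ P.IsHomogeneous 𝒟 ∧ ¬ ((𝒟 1 : Set D) ⊆ P)

/-- Relevant homogeneous primes over `π` that are maximal: closed points of the special fibre. -/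
def Clo [GradedAlgebra 𝒟] (π : A) (P : Ideal D) : Prop :=
  Rel 𝒟 P ∧ algebraMap A D π ∈ P ∧ ∀ Q : Ideal D, Rel 𝒟 Q → P ≤ Q → Q = P

/-- The local ring of Proj at `P`, inside the fraction field `L` of `D`. -/
def Loc (L : Type w) [Field L] [Algebra D L] (P : Ideal D) : Set L :=
  {z | ∃ d : ℕ, ∃ a ∈ 𝒟 d, ∃ b ∈ 𝒟 d, b ∉ P ∧ z * algebraMap D L b = algebraMap D L a}

/-- The chart `l ≠ 0` for `l` homogeneous of degree `Δ`, inside `L`. -/
def Chart (L : Type w) [Field L] [Algebra D L] (l : D) (Δ : ℕ) : Set L :=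
  {z | ∃ k : ℕ, ∃ a ∈ 𝒟 (k * Δ), z * algebraMap D L l ^ k = algebraMap D L a}

end Graded

/-- AVOID: homogeneous prime avoidance. -/
def S_AVOID : Prop :=
  ∀ (A : Type u) (D : Type v) [CommRing A] [CommRing D] [Algebra A D] (𝒟 : ℕ → Submodule A D)
    [GradedAlgebra 𝒟] (I : Ideal D), I.IsHomogeneous 𝒟 → ∀ Q : Finset (Ideal D),
    (∀ P ∈ Q, Rel 𝒟 P) → (∀ P ∈ Q, ¬ I ≤ P) →
    ∃ n : ℕ, 0 < n ∧ ∃ f ∈ 𝒟 n, f ∈ I ∧ ∀ P ∈ Q, f ∉ P

/-- FINPT: finitely many points of the special fibre on `β = 0`. -/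
def S_FINPT : Prop :=
  ∀ (A : Type u) (D : Type v) [CommRing A] [CommRing D] [Algebra A D] [IsNoetherianRing D]
    (𝒟 : ℕ → Submodule A D) [GradedAlgebra 𝒟] (π : A),
    (∀ P Q : Ideal D, Rel 𝒟 P → Rel 𝒟 Q → algebraMap A D π ∈ P → P < Q → Clo 𝒟 π Q) →
    ∀ (m : ℕ), ∀ β ∈ 𝒟 m,
    (∀ y ∈ (Ideal.span {algebraMap A D π}).minimalPrimes, Rel 𝒟 y → β ∉ y) →
    {P : Ideal D | Rel 𝒟 P ∧ algebraMap A D π ∈ P ∧ β ∈ P}.Finite ∧
    ∀ P : Ideal D, Rel 𝒟 P → algebraMap A D π ∈ P → β ∈ P → Clo 𝒟 π P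

/-- NAK: `𝒟 (d + Δ) = l0 𝒟 d + l1 𝒟 d` for large `d`. -/
def S_NAK : Prop :=
  ∀ (A : Type u) (D : Type v) [CommRing A] [IsLocalRing A] [IsNoetherianRing A] [CommRing D]
    [Algebra A D] (𝒟 : ℕ → Submodule A D) [GradedAlgebra 𝒟] (π : A),
    π ∈ IsLocalRing.maximalIdeal A → (𝒟 1).FG → Algebra.adjoin A (𝒟 1 : Set D) = ⊤ →
    ∀ (Δ : ℕ), 0 < Δ → ∀ l0 ∈ 𝒟 Δ, ∀ l1 ∈ 𝒟 Δ,
    (∀ P : Ideal D, Rel 𝒟 P → algebraMap A D π ∈ P → l0 ∈ P → l1 ∉ P) →
    ∃ d0 : ℕ, ∀ d, d0 ≤ d → ∀ z ∈ 𝒟 (d + Δ), ∃ z0 ∈ 𝒟 d, ∃ z1 ∈ 𝒟 d, z = l0 * z0 + l1 * z1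

/-- NULL: Nullstellensatz modulo `π`. -/
def S_NULL : Prop :=
  ∀ (A : Type u) (D : Type v) [CommRing A] [CommRing D] [Algebra A D] (𝒟 : ℕ → Submodule A D)
    [GradedAlgebra 𝒟] (π : A) (m s : ℕ), 0 < s → (∀ z, z ∈ 𝒟 0 → ∃ x : A, z = algebraMap A D x) →
    Algebra.adjoin A (𝒟 1 : Set D) = ⊤ → ∀ β ∈ 𝒟 m, ∀ l ∈ 𝒟 s,
    (∀ P : Ideal D, Rel 𝒟 P → algebraMap A D π ∈ P → β ∈ P → l ∈ P) →
    ∃ k : ℕ, m ≤ k * s ∧ ∃ e ∈ 𝒟 (k * s - m), ∃ c ∈ 𝒟 (k * s), l ^ k = β * e + algebraMap A D π * c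

/-- HNFG: sections of `O(N)` are finitely generated. -/
def S_HNFG : Prop :=
  ∀ (A : Type u) (L : Type v) [CommRing A] [IsDomain A] [IsNoetherianRing A] [Field L]
    [Algebra A L] (T : L), Transcendental A T → ∀ M : Submodule A L, M.FG → ∀ d N : ℕ,
    ((Submodule.span A {z : L | ∃ i : ℕ, ∃ m ∈ M, z = T ^ i * m}) ⊓
      (Submodule.span A {z : L | ∃ i : ℕ, ∃ m ∈ M, T ^ (i + d) * z = T ^ N * m})).FG

/-- TRANSC: `T` is transcendental. -/
def S_TRANSC : Prop :=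
  ∀ (A : Type u) (B : Type v) [CommRing A] [IsDomain A] [IsDiscreteValuationRing A] [CommRing B]
    [IsDomain B] [Algebra A B] (π : A), Irreducible π → algebraMap A B π ≠ 0 →
    ∀ (T : B) (M : Submodule A B), M.FG →
    (∀ z : B, z ∈ Submodule.span A {z : B | ∃ i : ℕ, ∃ m ∈ M, z = T ^ i * m}) →
    ∀ x y : Ideal B, x.IsPrime → y.IsPrime → algebraMap A B π ∈ y → y < x → Transcendental A T

end Pool.Agent.H12.KP
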