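import Pool.Agent.H12.KP.Targets2

/-!
# Project KEW, block (i): charts, reductions and the final theorem (helper12)
-/

namespace Pool.Agent.H12.KP

open Polynomial TensorProduct

universe u v w

section Charts

variable {A : Type u} {D : Type u} [CommRing A] [CommRing D] [IsDomain D] [Algebra A D]
  (𝒟 : ℕ → Submodule A D) [GradedAlgebra 𝒟] (L : Type u) [Field L] [Algebra D L]
  [IsFractionRing D L] [Algebra A L] [IsScalarTower A D L]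

/-- The chart `l ≠ 0` as a subalgebra of `L`. -/
noncomputable def ChartA (l : D) (Δ : ℕ) (hl : l ∈ 𝒟 Δ) : Subalgebra A L where
  carrier := Chart 𝒟 L l Δ
  mul_mem' := by
    rintro x y ⟨k, a, ha, hx⟩ ⟨k', a', ha', hy⟩
    refine ⟨k + k', a * a', ?_, ?_⟩
    · rw [add_mul]; exact SetLike.mul_mem_graded ha ha'
    · rw [map_mul, ← hx, ← hy, pow_add]; ring
  add_mem' := by
    rintro x y ⟨k, a, ha, hx⟩ ⟨k', a', ha', hy⟩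
    refine ⟨k + k', a * l ^ k' + a' * l ^ k, ?_, ?_⟩
    · refine Submodule.add_mem _ ?_ ?_
      · rw [add_mul]
        have := SetLike.pow_mem_graded k' hl
        rw [smul_eq_mul] at this
        exact SetLike.mul_mem_graded ha this
      · rw [add_mul, add_comm]
        have := SetLike.pow_mem_graded k hl
        rw [smul_eq_mul] at this
        exact SetLike.mul_mem_graded ha' this
    · rw [map_add, map_mul, map_mul, map_pow, map_pow, ← hx, ← hy, pow_add]; ring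
  algebraMap_mem' := by
    intro c
    refine ⟨0, algebraMap A D c, ?_, ?_⟩
    · rw [zero_mul]; exact SetLike.algebraMap_mem_graded 𝒟 c
    · rw [pow_zero, mul_one, IsScalarTower.algebraMap_apply A D L]

end Charts

/-- The two forms `l0`, `l1` of degree `Δ` with `𝒟 (d + Δ) = l0 𝒟 d + l1 𝒟 d` for `d ≥ d0`. -/
structure Forms {A : Type u} {D : Type u} [CommRing A] [CommRing D] [Algebra A D]
    (𝒟 : ℕ → Submodule A D) [GradedAlgebra 𝒟] (Δ d0 : ℕ) (l0 l1 : D) : Prop where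
  pos : 0 < Δ
  m0 : l0 ∈ 𝒟 Δ
  m1 : l1 ∈ 𝒟 Δ
  n0 : l0 ≠ 0
  n1 : l1 ≠ 0
  gen : ∀ d, d0 ≤ d → ∀ z ∈ 𝒟 (d + Δ), ∃ z0 ∈ 𝒟 d, ∃ z1 ∈ 𝒟 d, z = l0 * z0 + l1 * z1

/-- CHGEN: description of the charts by one finitely generated module `M`:
`B0 = A[T] M`, `T^d1 B1 = A[1/T] M`, `B01 = A[T,1/T] M`, where `T = l0 / l1`. -/
def S_CHGEN : Prop :=
  ∀ (A : Type u) (D : Type u) [CommRing A] [CommRing D] [IsDomain D] [Algebra A D]
    (𝒟 : ℕ → Submodule A D) [GradedAlgebra 𝒟] (L : Type u) [Field L] [Algebra D L]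
    [IsFractionRing D L] [Algebra A L] [IsScalarTower A D L] (Δ d0 : ℕ) (l0 l1 : D),
    Forms 𝒟 Δ d0 l0 l1 → (∀ d, (𝒟 d).FG) →
    ∃ (M : Submodule A L) (d1 : ℕ), M.FG ∧
      (∀ z, z ∈ Chart 𝒟 L l1 Δ ↔ z ∈ Submodule.span A {z : L | ∃ i : ℕ, ∃ m ∈ M,
        z = (algebraMap D L l0 / algebraMap D L l1) ^ i * m}) ∧
      (∀ z, z ∈ Chart 𝒟 L l0 Δ ↔ z ∈ Submodule.span A {z : L | ∃ i : ℕ, ∃ m ∈ M,
        z = (algebraMap D L l1 / algebraMap D L l0) ^ (i + d1) * m}) ∧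
      (∀ z, z ∈ Chart 𝒟 L (l0 * l1) (Δ + Δ) ↔ z ∈ Submodule.span A {z : L | ∃ i : ℤ, ∃ m ∈ M,
        z = (algebraMap D L l0 / algebraMap D L l1) ^ i * m})

/-- CHRING: consequences for an abstract chart given by such an `M`. -/
def S_CHRING : Prop :=
  ∀ (A : Type u) (L : Type u) [CommRing A] [IsNoetherianRing A] [Field L] [Algebra A L]
    (T : L) (M : Submodule A L) (d1 : ℕ), T ≠ 0 → M.FG →
    ∀ (B0 B1 B01 : Subalgebra A L), T ∈ B0 → T⁻¹ ∈ B1 → 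
    (∀ z, z ∈ B0 ↔ z ∈ Submodule.span A {z : L | ∃ i : ℕ, ∃ m ∈ M, z = T ^ i * m}) →
    (∀ z, z ∈ B1 ↔ z ∈ Submodule.span A {z : L | ∃ i : ℕ, ∃ m ∈ M, z = T⁻¹ ^ (i + d1) * m}) →
    (∀ z, z ∈ B01 ↔ z ∈ Submodule.span A {z : L | ∃ i : ℤ, ∃ m ∈ M, z = T ^ i * m}) →
    IsNoetherianRing B0 ∧ IsNoetherianRing B1 ∧ Algebra.FiniteType A B0 ∧
    Algebra.FiniteType A B1 ∧
    (∃ M' : Submodule A L, M'.FG ∧ M' ≤ Subalgebra.toSubmodule B1 ∧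
      ∀ z ∈ B1, ∃ m ∈ M', ∃ c ∈ B1, z = m + T⁻¹ * c) ∧
    ∀ N, d1 ≤ N → ∀ z ∈ B01, ∃ z0 ∈ B0, ∃ z1 ∈ B1, z = z0 + T ^ N * z1

/-- WAG: weak approximation by homogeneous fractions. -/
def S_WAG : Prop :=
  ∀ (A : Type u) (D : Type u) [CommRing A] [CommRing D] [IsDomain D] [IsNoetherianRing D]
    [Algebra A D] (𝒟 : ℕ → Submodule A D) [GradedAlgebra 𝒟] (L : Type u) [Field L] [Algebra D L]
    [IsFractionRing D L] (π : A), algebraMap A D π ≠ 0 → ∀ (n : ℕ), 1 ≤ n →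
    ∀ (Z : Finset (Ideal D)) (m : Ideal D → ℕ) (a c : Ideal D → D),
    (∀ z ∈ Z, Rel 𝒟 z ∧ algebraMap A D π ∈ z) →
    (∀ z ∈ Z, a z ∈ 𝒟 (m z) ∧ c z ∈ 𝒟 (m z) ∧ a z ≠ 0 ∧ c z ≠ 0) →
    (∀ z ∈ Z, ∀ z' ∈ Z, z ≠ z' → ∀ P : Ideal D, P.IsPrime →
      algebraMap A D π * (a z * c z) ∈ P → P ≤ z → ¬ P ≤ z') →
    ∃ (k : ℕ) (f g : D), f ∈ 𝒟 k ∧ g ∈ 𝒟 k ∧ f ≠ 0 ∧ g ≠ 0 ∧
      ∀ z ∈ Z, ∃ s ∈ Loc 𝒟 L z,
        algebraMap D L (f * c z) / algebraMap D L (g * a z) =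
          1 + algebraMap D L (algebraMap A D π) ^ n * s

/-- CDEN: common denominator. -/
def S_CDEN : Prop :=
  ∀ (A : Type u) (D : Type u) [CommRing A] [CommRing D] [IsDomain D] [IsNoetherianRing D]
    [Algebra A D] (𝒟 : ℕ → Submodule A D) [GradedAlgebra 𝒟] (L : Type u) [Field L] [Algebra D L]
    [IsFractionRing D L] (Q : Finset (Ideal D)) (s : L), s ∈ Loc 𝒟 L ⊥ →
    (∀ P ∈ Q, Rel 𝒟 P) → (∀ P ∈ Q, s ∈ Loc 𝒟 L P) →
    ∃ (m : ℕ) (α β : D), α ∈ 𝒟 m ∧ β ∈ 𝒟 m ∧ β ≠ 0 ∧ (∀ P ∈ Q, β ∉ P) ∧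
      s * algebraMap D L β = algebraMap D L α

/-- The conclusion of theorem (P1): `ξ` has the same class as `h` at `x`, and trivial class at
all other closed points of the special fibre, modulo `q`-th powers and units. -/
def P1Concl {A : Type u} {D : Type u} [CommRing A] [CommRing D] [Algebra A D]
    (𝒟 : ℕ → Submodule A D) [GradedAlgebra 𝒟] (L : Type u) [Field L] [Algebra D L]
    (π : A) (q : ℕ) (x : Ideal D) (h : L) : Prop :=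
  ∃ ξ ∈ Loc 𝒟 L ⊥, ξ ≠ 0 ∧
    (∃ g ∈ Loc 𝒟 L ⊥, g ≠ 0 ∧ ∃ v ∈ Loc 𝒟 L x, v ≠ 0 ∧ v⁻¹ ∈ Loc 𝒟 L x ∧ ξ = h * g ^ q * v) ∧
    ∀ x' : Ideal D, Clo 𝒟 π x' → x' ≠ x →
      ∃ g ∈ Loc 𝒟 L ⊥, g ≠ 0 ∧ ∃ v ∈ Loc 𝒟 L x', v ≠ 0 ∧ v⁻¹ ∈ Loc 𝒟 L x' ∧ ξ = g ^ q * v

/-- The standing hypotheses on the graded domain of a relative curve. -/
structure RelCurve (A : Type u) (D : Type u) [CommRing A] [CommRing D] [Algebra A D]
    (𝒟 : ℕ → Submodule A D) [GradedAlgebra 𝒟] (π : A) : Prop where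
  fg : (𝒟 1).FG
  gen : Algebra.adjoin A (𝒟 1 : Set D) = ⊤
  ne : algebraMap A D π ≠ 0
  dim : ∀ P Q : Ideal D, Rel 𝒟 P → Rel 𝒟 Q → algebraMap A D π ∈ P → P < Q → Clo 𝒟 π Q

/-- RED: reduction to `h = 1 + π^n α / β` with `β` in no generic point of the special fibre. -/
def S_RED : Prop :=
  ∀ (A : Type u) (D : Type u) [CommRing A] [IsDomain A] [IsNoetherianRing A] [CommRing D]
    [IsDomain D] [Algebra A D] (𝒟 : ℕ → Submodule A D) [GradedAlgebra 𝒟] (L : Type u) [Field L]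
    [Algebra D L] [IsFractionRing D L] (π : A), RelCurve A D 𝒟 π → ∀ (n q : ℕ), 1 ≤ n → 1 ≤ q →
    ∀ x : Ideal D, Clo 𝒟 π x → ∀ h ∈ Loc 𝒟 L ⊥, h ≠ 0 →
    (∀ y ∈ (Ideal.span {algebraMap A D π}).minimalPrimes, Rel 𝒟 y → y ≤ x →
      ∃ g ∈ Loc 𝒟 L ⊥, g ≠ 0 ∧ ∃ s ∈ Loc 𝒟 L y,
        h = g ^ q * (1 + algebraMap D L (algebraMap A D π) ^ n * s)) →
    ∃ (m : ℕ) (α β : D), α ∈ 𝒟 m ∧ β ∈ 𝒟 m ∧ β ≠ 0 ∧
      (∀ y ∈ (Ideal.span {algebraMap A D π}).minimalPrimes, Rel 𝒟 y → β ∉ y) ∧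
      ∃ g ∈ Loc 𝒟 L ⊥, g ≠ 0 ∧ ∃ v ∈ Loc 𝒟 L x, v ≠ 0 ∧ v⁻¹ ∈ Loc 𝒟 L x ∧
        h = g ^ q * v * (1 + algebraMap D L (algebraMap A D π) ^ n *
          (algebraMap D L α / algebraMap D L β))

/-- CORE: theorem (P1) for `h = 1 + π^n0 α / β`. -/
def S_CORE : Prop :=
  ∀ (A : Type u) (D : Type u) [CommRing A] [IsDomain A] [IsDiscreteValuationRing A]
    [HenselianLocalRing A] [CharZero A] [CommRing D] [IsDomain D] [Algebra A D]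
    (𝒟 : ℕ → Submodule A D) [GradedAlgebra 𝒟] (L : Type u) [Field L] [Algebra D L]
    [IsFractionRing D L] (π : A), Irreducible π → RelCurve A D 𝒟 π →
    ∀ (p : ℕ), p.Prime → ∀ (ε : A) (e a r : ℕ), (p : A) = ε * π ^ e → IsUnit ε →
    1 ≤ a → e < a * (p - 1) → ∀ x : Ideal D, Clo 𝒟 π x →
    ∀ (m : ℕ) (α β : D), α ∈ 𝒟 m → β ∈ 𝒟 m → β ≠ 0 →
    (∀ y ∈ (Ideal.span {algebraMap A D π}).minimalPrimes, Rel 𝒟 y → β ∉ y) →
    P1Concl 𝒟 L π (p ^ r) x (1 + algebraMap D L (algebraMap A D π) ^ (r * e + a) *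
          (algebraMap D L α / algebraMap D L β))

/-- The final theorem of block (i). -/
def S_P1 : Prop :=
  ∀ (A : Type u) (D : Type u) [CommRing A] [IsDomain A] [IsDiscreteValuationRing A]
    [HenselianLocalRing A] [CharZero A] [CommRing D] [IsDomain D] [Algebra A D]
    (𝒟 : ℕ → Submodule A D) [GradedAlgebra 𝒟] (L : Type u) [Field L] [Algebra D L]
    [IsFractionRing D L] (π : A), Irreducible π → RelCurve A D 𝒟 π →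
    ∀ (p : ℕ), p.Prime → ∀ (ε : A) (e a r : ℕ), (p : A) = ε * π ^ e → IsUnit ε →
    1 ≤ a → e < a * (p - 1) → ∀ x : Ideal D, Clo 𝒟 π x → ∀ h ∈ Loc 𝒟 L ⊥, h ≠ 0 →
    (∀ y ∈ (Ideal.span {algebraMap A D π}).minimalPrimes, Rel 𝒟 y → y ≤ x →
      ∃ g ∈ Loc 𝒟 L ⊥, g ≠ 0 ∧ ∃ s ∈ Loc 𝒟 L y,
        h = g ^ (p ^ r) * (1 + algebraMap D L (algebraMap A D π) ^ (r * e + a) * s)) →
    P1Concl 𝒟 L π (p ^ r) x h

end Pool.Agent.H12.KP
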