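import Pool.Agent.H12.KP.Targets3

/-!
# Project KEW, block (i): assembly targets (helper12)
-/

namespace Pool.Agent.H12.KP

open Polynomial TensorProduct

universe u v w

/-- AHN: the completion is noetherian, and so are finite type algebras over it. -/
def S_AHN : Prop :=
  ∀ (A : Type u) (Ah : Type u) [CommRing A] [IsDomain A] [IsDiscreteValuationRing A]
    [CommRing Ah] [Algebra A Ah] (π : A), Irreducible π → IsCompl Ah π →
    IsNoetherianRing Ah ∧ Module.Flat A Ah ∧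
    ∀ (B : Type u) [CommRing B] [Algebra A B], Algebra.FiniteType A B →
      IsNoetherianRing (Ah ⊗[A] B)

/-- HCERT: the certificate over a henselian dvr of characteristic zero. -/
def S_HCERT : Prop :=
  ∀ (A : Type u) (B0 B1 B01 : Type u) [CommRing A] [IsDomain A] [IsDiscreteValuationRing A]
    [HenselianLocalRing A] [CharZero A] [CommRing B0] [CommRing B1] [CommRing B01]
    [Algebra A B0] [Algebra A B1] [Algebra A B01]
    [Module.Flat A B0] [Module.Flat A B1] [Module.Flat A B01]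
    [Algebra.FiniteType A B0] [Algebra.FiniteType A B1]
    (C : Charts A B0 B1 B01)
    (p : ℕ), p.Prime → ∀ (π ε : A), Irreducible π → ∀ (e a r : ℕ), (p : A) = ε * π ^ e →
    IsUnit ε → 1 ≤ a → e < a * (p - 1) →
    (∀ z : B01, algebraMap A B01 π * z = 0 → z = 0) →
    (∃ M : Submodule A B1, M.FG ∧ ∀ z : B1, ∃ m ∈ M, ∃ c, z = m + C.S * c) →
    ∀ (b c : B0) (b1 : B1) (N j : ℕ), (HN C (j + N * p ^ r)).FG →
    C.i0 b = C.i0 C.T ^ j * C.i1 b1 →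
    (∃ b' : B01, algebraMap A B01 π ∣ C.i0 b * b' - 1) →
    (∀ N', N ≤ N' → ∀ z : B01, ∃ z0 z1, z = C.i0 z0 + C.i0 C.T ^ N' * C.i1 z1) →
    Cert C π (r * e + a) (p ^ r) (j + N * p ^ r) b c b1

/-- FORMS: choice of the two forms `l0`, `l1`. -/
def S_FORMS : Prop :=
  ∀ (A : Type u) (D : Type u) [CommRing A] [IsDomain A] [IsDiscreteValuationRing A] [CommRing D]
    [IsDomain D] [Algebra A D] (𝒟 : ℕ → Submodule A D) [GradedAlgebra 𝒟] (π : A),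
    Irreducible π → RelCurve A D 𝒟 π → ∀ x : Ideal D, Clo 𝒟 π x →
    ∀ (m : ℕ) (β : D), β ∈ 𝒟 m → β ∈ x →
    (∀ y ∈ (Ideal.span {algebraMap A D π}).minimalPrimes, Rel 𝒟 y → β ∉ y) →
    ∃ (Δ d0 : ℕ) (l0 l1 : D), Forms 𝒟 Δ d0 l0 l1 ∧ l0 ∈ x ∧ l1 ∉ x ∧
      (∀ P : Ideal D, Clo 𝒟 π P → β ∈ P → P ≠ x → l1 ∈ P) ∧
      (∀ P : Ideal D, Rel 𝒟 P → algebraMap A D π ∈ P → l0 ∈ P → l1 ∉ P)

/-- The certificate, for subsets `B0`, `B1` of a field. -/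
def CertL {L : Type u} [Field L] (B0 B1 : Set L) (T πL : L) (n0 q M : ℕ) (b c b1 : L) : Prop :=
  ∃ η0 ∈ B0, ∃ f0 ∈ B0, ∃ f1 ∈ B0, ∃ s0 ∈ B0, ∃ s1 ∈ B0, ∃ g0 ∈ B0,
  ∃ η1 ∈ B1, ∃ i ∈ B1, ∃ g1 ∈ B1, ∃ d1 ∈ B1, ∃ s2 ∈ B1, ∃ s3 ∈ B1, ∃ s4 ∈ B1, ∃ s5 ∈ B1,
      η0 = T ^ M * η1 ∧
      (1 + πL * s0) * η0 = (b + πL ^ n0 * c) * f0 ∧
      (1 + πL * s1) * (b + πL ^ n0 * c) = η0 * f1 ∧
      η0 = b + πL * g0 ∧
      (1 + πL * s2 + T⁻¹ * s3) * (b1 * i ^ q) = η1 * g1 ∧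
      (1 + πL * s4 + T⁻¹ * s5) * η1 = b1 * i ^ q * d1

/-- CERTL: the certificate for the charts of a relative curve. -/
def S_CERTL : Prop :=
  ∀ (A : Type u) (D : Type u) [CommRing A] [IsDomain A] [IsDiscreteValuationRing A]
    [HenselianLocalRing A] [CharZero A] [CommRing D] [IsDomain D] [Algebra A D]
    (𝒟 : ℕ → Submodule A D) [GradedAlgebra 𝒟] (L : Type u) [Field L] [Algebra D L]
    [IsFractionRing D L] (π : A), Irreducible π → RelCurve A D 𝒟 π →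
    ∀ (p : ℕ), p.Prime → ∀ (ε : A) (e a r : ℕ), (p : A) = ε * π ^ e → IsUnit ε →
    1 ≤ a → e < a * (p - 1) →
    ∀ (m : ℕ) (α β : D), α ∈ 𝒟 m → β ∈ 𝒟 m → β ≠ 0 →
    ∀ (x y : Ideal D), Rel 𝒟 x → Rel 𝒟 y → y < x → algebraMap A D π ∈ y →
    ∀ (Δ d0 : ℕ) (l0 l1 : D), Forms 𝒟 Δ d0 l0 l1 → l1 ∉ x →
    (∀ P : Ideal D, Rel 𝒟 P → algebraMap A D π ∈ P → β ∈ P → l0 * l1 ∈ P) →
    ∃ N : ℕ, CertL (Chart 𝒟 L l1 Δ) (Chart 𝒟 L l0 Δ)
      (algebraMap D L l0 / algebraMap D L l1) (algebraMap D L (algebraMap A D π))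
      (r * e + a) (p ^ r) (m + N * p ^ r)
      (algebraMap D L β ^ Δ / algebraMap D L l1 ^ m)
      (algebraMap D L α * algebraMap D L β ^ (Δ - 1) / algebraMap D L l1 ^ m)
      (algebraMap D L β ^ Δ / algebraMap D L l0 ^ m)

/-- CONC: from the certificate to the conclusion of (P1). -/
def S_CONC : Prop :=
  ∀ (A : Type u) (D : Type u) [CommRing A] [IsDomain A] [IsDiscreteValuationRing A]
    [CommRing D] [IsDomain D] [Algebra A D] [IsNoetherianRing D]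
    (𝒟 : ℕ → Submodule A D) [GradedAlgebra 𝒟] (L : Type u) [Field L] [Algebra D L]
    [IsFractionRing D L] (π : A), Irreducible π → RelCurve A D 𝒟 π →
    ∀ (n0 q : ℕ), 1 ≤ n0 → 1 ≤ q → ∀ (m : ℕ) (α β : D), α ∈ 𝒟 m → β ∈ 𝒟 m → β ≠ 0 →
    ∀ (x : Ideal D), Clo 𝒟 π x →
    (∀ y ∈ (Ideal.span {algebraMap A D π}).minimalPrimes, Rel 𝒟 y → β ∉ y) →
    ∀ (Δ d0 : ℕ) (l0 l1 : D), Forms 𝒟 Δ d0 l0 l1 → l1 ∉ x →
    (∀ P : Ideal D, Clo 𝒟 π P → β ∈ P → P ≠ x → l1 ∈ P) →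
    (∀ P : Ideal D, Rel 𝒟 P → algebraMap A D π ∈ P → l0 ∈ P → l1 ∉ P) →
    ∀ N : ℕ, CertL (Chart 𝒟 L l1 Δ) (Chart 𝒟 L l0 Δ)
      (algebraMap D L l0 / algebraMap D L l1) (algebraMap D L (algebraMap A D π))
      n0 q (m + N * q)
      (algebraMap D L β ^ Δ / algebraMap D L l1 ^ m)
      (algebraMap D L α * algebraMap D L β ^ (Δ - 1) / algebraMap D L l1 ^ m)
      (algebraMap D L β ^ Δ / algebraMap D L l0 ^ m) →
    P1Concl 𝒟 L π q x (1 + algebraMap D L (algebraMap A D π) ^ n0 *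
          (algebraMap D L α / algebraMap D L β))

end Pool.Agent.H12.KP
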